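import Pool.Agent.Helper97.Tate.Goals

/-!
# Packet TATE-PRD (project FewPoints, MP_d3128a_ag)
-/

set_option autoImplicit false

namespace Pool.Agent.Helper99.Tate.PRD

open Pool.Agent.Helper97.Tate
open scoped BigOperators

section

variable {G : Type} [AddCommGroup G]

theorem mul_coeff (x y : AddMonoidAlgebra ℚ G) (g : G) :
    (x * y).coeff g = ∑ a ∈ x.coeff.support, x.coeff a * y.coeff (g - a) := by
  classical
  rw [AddMonoidAlgebra.coeff_mul, Finsupp.sum]
  refine Finset.sum_congr rfl fun a _ => ?_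
  rw [Finsupp.sum]
  by_cases h : y.coeff (g - a) = 0
  · rw [h, mul_zero]
    refine Finset.sum_eq_zero fun b hb => ?_
    rw [if_neg]
    intro hab
    have : b = g - a := by rw [← hab]; abel
    rw [this] at hb
    exact (Finsupp.mem_support_iff.1 hb) h
  · rw [Finset.sum_eq_single (g - a)]
    · rw [if_pos (by abel)]
    · intro b _ hb
      rw [if_neg]
      intro hab
      exact hb (by rw [← hab]; abel)
    · intro h'
      exact absurd (Finsupp.mem_support_iff.2 h) h'

theorem two (F Q : PowerSeries (AddMonoidAlgebra ℚ G)) (N : ℕ) (g : G) :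
    (PowerSeries.coeff N (F * Q)).coeff g =
      ∑ p ∈ Finset.HasAntidiagonal.antidiagonal N, ∑ a ∈ (PowerSeries.coeff p.1 F).coeff.support,
        (PowerSeries.coeff p.1 F).coeff a * (PowerSeries.coeff p.2 Q).coeff (g - a) := by
  rw [PowerSeries.coeff_mul, AddMonoidAlgebra.coeff_sum, Finsupp.finsetSum_apply]
  exact Finset.sum_congr rfl fun p _ => mul_coeff _ _ _

theorem two_ne (F Q : PowerSeries (AddMonoidAlgebra ℚ G)) (N : ℕ) (g : G)
    (h : (PowerSeries.coeff N (F * Q)).coeff g ≠ 0) :
    ∃ (n m : ℕ) (a b : G), n + m = N ∧ a + b = g ∧ (PowerSeries.coeff n F).coeff a ≠ 0 ∧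
      (PowerSeries.coeff m Q).coeff b ≠ 0 := by
  rw [two] at h
  obtain ⟨p, hp, hp'⟩ := Finset.exists_ne_zero_of_sum_ne_zero h
  obtain ⟨a, _, ha⟩ := Finset.exists_ne_zero_of_sum_ne_zero hp'
  exact ⟨p.1, p.2, a, g - a, Finset.HasAntidiagonal.mem_antidiagonal.1 hp, by abel, left_ne_zero_of_mul ha,
    right_ne_zero_of_mul ha⟩

theorem two_eq (F Q : PowerSeries (AddMonoidAlgebra ℚ G)) (N M : ℕ) (g h : G)
    (H : ∀ (n m : ℕ) (a b : G), n + m = N + M → a + b = g + h →
      (PowerSeries.coeff n F).coeff a ≠ 0 → (PowerSeries.coeff m Q).coeff b ≠ 0 →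
      n = N ∧ a = g) :
    (PowerSeries.coeff (N + M) (F * Q)).coeff (g + h) =
      (PowerSeries.coeff N F).coeff g * (PowerSeries.coeff M Q).coeff h := by
  rw [two, Finset.sum_eq_single (N, M)]
  · by_cases h0 : (PowerSeries.coeff N F).coeff g = 0
    · rw [h0, zero_mul]
      refine Finset.sum_eq_zero fun a ha => ?_
      by_contra hne
      obtain ⟨-, hag⟩ := H N M a (g + h - a) rfl (by abel) (left_ne_zero_of_mul hne)
        (right_ne_zero_of_mul hne)
      rw [hag] at ha
      exact (Finsupp.mem_support_iff.1 ha) h0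
    · rw [Finset.sum_eq_single g]
      · have : g + h - g = h := by abel
        simp only [this]
      · intro a _ hag
        by_contra hne
        exact hag (H N M a (g + h - a) rfl (by abel) (left_ne_zero_of_mul hne)
          (right_ne_zero_of_mul hne)).2
      · intro hg
        exact absurd (Finsupp.mem_support_iff.2 h0) hg
  · intro p hp hpne
    refine Finset.sum_eq_zero fun a _ => ?_
    by_contra hne
    have hp' := Finset.HasAntidiagonal.mem_antidiagonal.1 hp
    have hN := (H p.1 p.2 a (g + h - a) hp' (by abel) (left_ne_zero_of_mul hne)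
      (right_ne_zero_of_mul hne)).1
    apply hpne
    ext
    · exact hN
    · show p.2 = M
      omega
  · intro hnot
    exact absurd (Finset.HasAntidiagonal.mem_antidiagonal.2 (show N + M = N + M from rfl)) hnot

theorem main (bw : G →+ ℚ) {ι : Type} (s : Finset ι)
    (F : ι → PowerSeries (AddMonoidAlgebra ℚ G)) (om : ι → ℚ) (Pn : ι → ℕ) (Pg : ι → G)
    (hF : ∀ c ∈ s, ∀ (N : ℕ) (g : G), (PowerSeries.coeff N (F c)).coeff g ≠ 0 →
      om c ≤ N + bw g ∧ (om c = N + bw g → N = Pn c ∧ g = Pg c)) :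
    (∀ (N : ℕ) (g : G), (PowerSeries.coeff N (∏ c ∈ s, F c)).coeff g ≠ 0 →
      ∑ c ∈ s, om c ≤ N + bw g ∧ (∑ c ∈ s, om c = N + bw g →
        N = ∑ c ∈ s, Pn c ∧ g = ∑ c ∈ s, Pg c ∧ ∀ c ∈ s, om c = Pn c + bw (Pg c))) ∧
    ((∀ c ∈ s, om c = Pn c + bw (Pg c)) →
      (PowerSeries.coeff (∑ c ∈ s, Pn c) (∏ c ∈ s, F c)).coeff (∑ c ∈ s, Pg c) =
        ∏ c ∈ s, (PowerSeries.coeff (Pn c) (F c)).coeff (Pg c)) := by
  classical
  induction s using Finset.induction_on with
  | empty =>
    constructor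
    · intro N g h
      rw [Finset.prod_empty, PowerSeries.coeff_one] at h
      by_cases hN : N = 0
      · rw [if_pos hN, AddMonoidAlgebra.one_def, AddMonoidAlgebra.coeff_single,
          Finsupp.single_apply] at h
        by_cases hg : (0 : G) = g
        · subst hg
          subst hN
          simp
        · rw [if_neg hg] at h
          exact absurd rfl h
      · rw [if_neg hN] at h
        exact absurd (by simp) h
    · intro _
      simp [AddMonoidAlgebra.one_def]
  | insert c s hc ih =>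
    obtain ⟨ih1, ih2⟩ := ih fun d hd => hF d (Finset.mem_insert_of_mem hd)
    have hFc := hF c (Finset.mem_insert_self c s)
    rw [Finset.prod_insert hc, Finset.sum_insert hc, Finset.sum_insert hc, Finset.sum_insert hc,
      Finset.prod_insert hc]
    constructor
    · intro N g h
      obtain ⟨n, m, a, b, hnm, hab, hn, hm⟩ := two_ne _ _ _ _ h
      obtain ⟨h1, h1'⟩ := hFc n a hn
      obtain ⟨h2, h2'⟩ := ih1 m b hm
      have hw : (N : ℚ) + bw g = (n + bw a) + (m + bw b) := by
        rw [← hnm, ← hab, map_add]; push_cast; ring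
      refine ⟨by rw [hw]; exact add_le_add h1 h2, fun he => ?_⟩
      rw [hw] at he
      have e1 : om c = n + bw a := by linarith
      have e2 : ∑ x ∈ s, om x = m + bw b := by linarith
      obtain ⟨hn1, ha1⟩ := h1' e1
      obtain ⟨hm2, hb2, hall⟩ := h2' e2
      refine ⟨by rw [← hnm, hn1, hm2], by rw [← hab, ha1, hb2], ?_⟩
      intro d hd
      rcases Finset.mem_insert.1 hd with rfl | hd
      · rw [e1, hn1, ha1]
      · exact hall d hd
    · intro hall
      have hc' := hall c (Finset.mem_insert_self c s)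
      have hs' : ∀ d ∈ s, om d = Pn d + bw (Pg d) := fun d hd =>
        hall d (Finset.mem_insert_of_mem hd)
      rw [← ih2 hs']
      apply two_eq
      intro n m a b hnm hab hn hm
      obtain ⟨h1, h1'⟩ := hFc n a hn
      obtain ⟨h2, -⟩ := ih1 m b hm
      have hsum : ∑ x ∈ s, om x = ((∑ x ∈ s, Pn x : ℕ) : ℚ) + bw (∑ x ∈ s, Pg x) := by
        rw [map_sum]
        push_cast
        rw [← Finset.sum_add_distrib]
        exact Finset.sum_congr rfl hs'
      have hw : (n : ℚ) + bw a + (m + bw b) =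
          Pn c + bw (Pg c) + (((∑ x ∈ s, Pn x : ℕ) : ℚ) + bw (∑ x ∈ s, Pg x)) := by
        have e1 : ((n : ℚ) + m) = Pn c + ((∑ x ∈ s, Pn x : ℕ) : ℚ) := by exact_mod_cast hnm
        have e2 : bw a + bw b = bw (Pg c) + bw (∑ x ∈ s, Pg x) := by
          rw [← map_add, hab, map_add]
        linarith
      exact h1' (by linarith)

end

theorem t : S_PRD := by
  intro G _ bw ι s F om Pn Pg hF hsum
  obtain ⟨h1, h2⟩ := main bw s F om Pn Pg hF
  refine ⟨h2, ?_⟩
  rintro ⟨c, hc, hne⟩
  by_contra h0
  exact hne (((h1 _ _ h0).2 hsum).2.2 c hc)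

end Pool.Agent.Helper99.Tate.PRD
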